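import Mathlib
import Pool.Agent.W188.QS.Stm

/-! Task QS-MAJ (helper188): `StSand -> StMaj`. -/

set_option autoImplicit false

open MeasureTheory Set Filter Topology

namespace Pool.Agent.W334.QS

open Pool.Agent.W188.QS

/-- powers of comparable numbers -/
lemma rpow_cmp {L x q : ℝ} (hL : 0 < L) (h1 : L / 2 ≤ x) (h2 : x ≤ 2 * L) :
    x ^ q ≤ 2 ^ |q| * L ^ q := by
  have hx : 0 < x := by linarith
  rcases le_total 0 q with hq | hq
  · rw [abs_of_nonneg hq, ← Real.mul_rpow (by norm_num) hL.le]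
    exact Real.rpow_le_rpow hx.le h2 hq
  · rw [abs_of_nonpos hq]
    have h3 : x ^ q ≤ (L / 2) ^ q := Real.rpow_le_rpow_of_nonpos (by linarith) h1 hq
    refine h3.trans (le_of_eq ?_)
    rw [Real.div_rpow hL.le (by norm_num), Real.rpow_neg (by norm_num)]
    rw [div_eq_mul_inv, mul_comm]

lemma ev_log (K κ q m : ℝ) (hκ : 0 < κ) (hqm : q < m) :
    ∀ᶠ T : ℝ in atTop, K * Real.log T ^ q ≤ κ * Real.log T ^ m := by
  have h1 : Tendsto (fun L : ℝ => K * L ^ (-(m - q))) atTop (𝓝 (K * 0)) :=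
    (tendsto_rpow_neg_atTop (by linarith)).const_mul K
  rw [mul_zero] at h1
  have h2 := (h1.comp Real.tendsto_log_atTop).eventually_le_const hκ
  have h3 := Real.tendsto_log_atTop.eventually_gt_atTop 0
  filter_upwards [h2, h3] with T hT hL
  have h4 : Real.log T ^ q = Real.log T ^ (-(m - q)) * Real.log T ^ m := by
    rw [← Real.rpow_add hL]
    congr 1
    ring
  rw [h4, ← mul_assoc]
  exact mul_le_mul_of_nonneg_right hT (Real.rpow_nonneg hL.le _)

lemma le_of_sq_le_sq {x y : ℝ} (h : x ^ 2 ≤ y ^ 2) (hy : 0 ≤ y) : x ≤ y :=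
  (abs_le_of_sq_le_sq' h hy).2

theorem qs_maj (h : StSand) : StMaj := by
  intro A c m q ε hc hε hm hqm μ ν hμ hν hN hA hlow
  set ε₁ : ℝ := min ε (1 / 10) with hε₁
  have he1 : 0 < ε₁ := lt_min hε (by norm_num)
  have he2 : ε₁ ≤ ε := min_le_left _ _
  have he3 : ε₁ ≤ 1 / 10 := min_le_right _ _
  set ρ : ℝ := ε₁ / 4 with hρ
  have hρ0 : 0 < ρ := by positivity
  have hρ1 : ρ ≤ 1 / 40 := by rw [hρ]; linarith
  obtain ⟨B₀, hB₀⟩ := hN
  set B : ℝ := max (max B₀ 1) ((|A| + 2) / ρ) with hB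
  have hB1 : B₀ ≤ B := (le_max_left _ _).trans (le_max_left _ _)
  have hB2 : 1 ≤ B := (le_max_right _ _).trans (le_max_left _ _)
  have hB3 : (|A| + 2) / ρ ≤ B := le_max_right _ _
  have hBpos : 0 < B := by linarith
  have hA0 : 0 ≤ |A| := abs_nonneg A
  have hBρ : |A| + 2 ≤ ρ ^ 2 * B ^ 2 := by
    have h1 : |A| + 2 ≤ ρ * B := by
      have := (div_le_iff₀ hρ0).1 hB3
      linarith
    have h2 : ρ * B ≤ (ρ * B) * (ρ * B) := le_mul_of_one_le_left (by linarith) (by linarith)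
    have h3 : (ρ * B) * (ρ * B) = ρ ^ 2 * B ^ 2 := by ring
    linarith
  obtain ⟨C, T₀, hC⟩ := hB₀ B hB1
  set δ : ℝ := ε₁ / 4 with hδ
  have hδ0 : 0 < δ := by positivity
  have ev1 : ∀ᶠ T : ℝ in atTop, μ.real (Ioc 0 (4 * T)) ≤ (4 * T) ^ A :=
    (tendsto_id.const_mul_atTop (by norm_num : (0 : ℝ) < 4)).eventually hA
  have ev4 : ∀ᶠ T : ℝ in atTop, 4 ^ |A| * T ^ (-(2 : ℝ)) ≤ δ / 2 * c := by
    have h1 : Tendsto (fun T : ℝ => 4 ^ |A| * T ^ (-(2 : ℝ))) atTop (𝓝 (4 ^ |A| * 0)) :=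
      (tendsto_rpow_neg_atTop (by norm_num)).const_mul _
    rw [mul_zero] at h1
    exact h1.eventually_le_const (by positivity)
  have ev6 : ∀ᶠ T : ℝ in atTop, T ^ (-(2 : ℝ)) ≤ ε₁ / 2 :=
    (tendsto_rpow_neg_atTop (by norm_num)).eventually_le_const (by positivity)
  have ev5 := ev_log ((1 + 2 * ρ) * (|C| * 2 ^ |q|) / √Real.pi) (δ / 2 * c) q m
    (by positivity) hqm
  filter_upwards [ev1, hlow, ev4, ev5, ev6, eventually_ge_atTop 16, eventually_ge_atTop (2 * T₀)]
    with T h1 h2 h4 h5 h6 hT hTT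
  have hT0 : 0 < T := by linarith
  set L := Real.log T with hL
  have hL1 : 1 ≤ L := by
    rw [hL, Real.le_log_iff_exp_le hT0]
    exact (Real.exp_one_lt_d9.le.trans (by norm_num : (2.7182818286 : ℝ) ≤ 16)).trans hT
  have hL0 : 0 < L := by linarith
  set u : ℝ := (1 - ρ) * T with hu
  set v : ℝ := (2 + ρ) * T with hv
  set r : ℝ := ρ * T with hr
  have hu0 : 0 < u := by rw [hu]; apply mul_pos <;> linarith
  have hρT : ρ * T ≤ 1 / 40 * T := mul_le_mul_of_nonneg_right hρ1 hT0.le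
  have hρT0 : 0 < ρ * T := mul_pos hρ0 hT0
  have huT : T / 2 ≤ u := by rw [hu]; linarith
  have huT' : u ≤ T := by rw [hu]; linarith
  have hu8 : 8 ≤ u := by linarith
  have huv : u ≤ v := by rw [hu, hv]; linarith
  have hv3 : v ≤ 3 * u := by rw [hu, hv]; linarith
  have hr0 : 0 ≤ r := by rw [hr]; positivity
  have hru : r ≤ u / 4 := by rw [hu, hr]; linarith
  have hlog2 : 0 < Real.log 2 := Real.log_pos (by norm_num)
  have hlogu : 3 * Real.log 2 ≤ Real.log u := by
    have : Real.log 8 ≤ Real.log u := Real.log_le_log (by norm_num) hu8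
    have h8 : Real.log 8 = 3 * Real.log 2 := by
      rw [show (8 : ℝ) = 2 ^ 3 by norm_num, Real.log_pow]; norm_num
    linarith
  have hlog3 : Real.log 3 ≤ 2 * Real.log 2 := by
    have : Real.log 3 ≤ Real.log 4 := Real.log_le_log (by norm_num) (by norm_num)
    have h8 : Real.log 4 = 2 * Real.log 2 := by
      rw [show (4 : ℝ) = 2 ^ 2 by norm_num, Real.log_pow]; norm_num
    linarith
  have hlog3u : Real.log (3 * u) = Real.log 3 + Real.log u :=
    Real.log_mul (by norm_num) hu0.ne'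
  have hlog30 : 0 < Real.log 3 := Real.log_pos (by norm_num)
  have hlogu0 : 0 < Real.log u := by linarith
  have hM0 : 0 < Real.log (3 * u) := by rw [hlog3u]; linarith
  set M := Real.log (3 * u) with hM
  have h916 : 9 * M ≤ 16 * Real.log u := by rw [hlog3u]; linarith
  set Δ : ℝ := u / (B * √M) with hΔ
  have hsM : 0 < √M := Real.sqrt_pos.2 hM0
  have hΔ0 : 0 < Δ := by positivity
  have hLu : L / 2 ≤ Real.log u := by
    have h7 : Real.log (T / 2) ≤ Real.log u := Real.log_le_log (by positivity) huT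
    rw [Real.log_div hT0.ne' (by norm_num), ← hL] at h7
    have h8 : 2 * Real.log 2 ≤ L := by
      have : Real.log 4 ≤ L := Real.log_le_log (by norm_num) (by linarith)
      have h8 : Real.log 4 = 2 * Real.log 2 := by
        rw [show (4 : ℝ) = 2 ^ 2 by norm_num, Real.log_pow]; norm_num
      linarith
    linarith
  have hML : M ≤ 2 * L := by
    have h7 : M ≤ Real.log (T ^ 2) := Real.log_le_log (by positivity) (by
      have : 3 * T ≤ T ^ 2 := by nlinarith
      linarith)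
    rw [Real.log_pow] at h7
    push_cast at h7
    exact h7
  have hLM : L ≤ M := Real.log_le_log hT0 (by linarith)
  -- the Gaussian error
  have hBD : B * Δ = u / √M := by
    rw [hΔ]; field_simp
  set e : ℝ := Real.exp (-(r / Δ) ^ 2) with he
  have heb : e ≤ T ^ (-(|A| + 2)) := by
    rw [he, Real.rpow_def_of_pos hT0, Real.exp_le_exp]
    have h7 : r / Δ = (T / u) * (ρ * B * √M) := by
      rw [hΔ, hr]; field_simp
    have h8 : (r / Δ) ^ 2 = (T / u) ^ 2 * (ρ ^ 2 * B ^ 2 * M) := by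
      rw [h7, mul_pow, mul_pow, mul_pow, Real.sq_sqrt hM0.le]
    have h9 : 1 ≤ (T / u) ^ 2 := by
      have : 1 ≤ T / u := (one_le_div hu0).2 huT'
      exact one_le_pow₀ this
    have h10 : (|A| + 2) * L ≤ ρ ^ 2 * B ^ 2 * M := by
      have : (|A| + 2) * L ≤ (ρ ^ 2 * B ^ 2) * L := mul_le_mul_of_nonneg_right hBρ hL0.le
      have h12 : (ρ ^ 2 * B ^ 2) * L ≤ (ρ ^ 2 * B ^ 2) * M :=
        mul_le_mul_of_nonneg_left hLM (by positivity)
      linarith
    have h11 : 0 ≤ ρ ^ 2 * B ^ 2 * M := by positivity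
    rw [h8]
    have h12 : ρ ^ 2 * B ^ 2 * M ≤ (T / u) ^ 2 * (ρ ^ 2 * B ^ 2 * M) :=
      le_mul_of_one_le_left h11 h9
    have h13 : Real.log T * -(|A| + 2) = -((|A| + 2) * L) := by rw [hL]; ring
    rw [h13]
    linarith
  have he0 : 0 ≤ e := (Real.exp_pos _).le
  have heT : T ^ (-(|A| + 2)) ≤ T ^ (-(2 : ℝ)) :=
    Real.rpow_le_rpow_of_exponent_le (by linarith) (by linarith)
  have he6 : e ≤ ε₁ / 2 := heb.trans (heT.trans h6)
  -- the sandwich
  have hsand := h μ ν hμ hν u v Δ r (|C| * Δ * (2 ^ |q| * L ^ q)) hu0 huv hv3 hΔ0 hr0 hru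
    (fun τ hτ => ?_)
  · have e1 : u + r = T := by rw [hu, hr]; ring
    have e2 : v - r = 2 * T := by rw [hv, hr]; ring
    rw [e1, e2] at hsand
    have hfin : ∀ (μ : Measure ℝ), (∀ x : ℝ, μ (Iic x) < ⊤) → ∀ (s : Set ℝ) (x : ℝ),
        s ⊆ Iic x → μ s ≠ ⊤ := fun μ hμ s x hs => ((measure_mono hs).trans_lt (hμ x)).ne
    have f1 : ν.real (Ioc T (2 * T)) ≤ ν.real (Icc T (2 * T)) :=
      measureReal_mono Ioc_subset_Icc_self (hfin ν hν _ (2 * T) fun x hx => hx.2)
    set MM := μ.real (Ioc ((1 - ε) * T) ((2 + ε) * T)) with hMM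
    have f2 : μ.real (Icc (u - r) (v + r)) ≤ MM := by
      refine measureReal_mono ?_ (hfin μ hμ _ ((2 + ε) * T) fun x hx => hx.2)
      intro x hx
      have g0 : ε₁ * T ≤ ε * T := mul_le_mul_of_nonneg_right he2 hT0.le
      have g00 : ε₁ * T = 4 * (ρ * T) := by rw [hρ]; ring
      have g1 : (1 - ε) * T < u - r := by rw [hu, hr]; linarith
      have g2 : v + r ≤ (2 + ε) * T := by rw [hv, hr]; linarith
      exact ⟨g1.trans_le hx.1, hx.2.trans g2⟩
    have f3 : μ.real (Ioo (u / 2) (3 * v / 2)) ≤ μ.real (Ioc 0 (4 * T)) := by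
      refine measureReal_mono ?_ (hfin μ hμ _ (4 * T) fun x hx => hx.2)
      intro x hx
      have g1 : 0 < u / 2 := by positivity
      have g2 : 3 * v / 2 ≤ 4 * T := by rw [hv]; linarith
      exact ⟨g1.trans hx.1, hx.2.le.trans g2⟩
    have f4 : c * (T * L ^ m) ≤ MM := by
      refine h2.trans (measureReal_mono ?_ (hfin μ hμ _ ((2 + ε) * T) fun x hx => hx.2))
      intro x hx
      have g0 : 0 < ε * T := mul_pos hε hT0
      have g1 : (1 - ε) * T ≤ T := by linarith
      have g2 : 2 * T ≤ (2 + ε) * T := by linarith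
      exact ⟨g1.trans_lt hx.1, hx.2.trans g2⟩
    have hLm : 1 ≤ L ^ m := Real.one_le_rpow hL1 hm
    have f5 : e * μ.real (Ioo (u / 2) (3 * v / 2)) ≤ δ / 2 * MM := by
      have g1 : (4 * T) ^ A ≤ 4 ^ |A| * T ^ |A| := by
        rw [← Real.mul_rpow (by norm_num) hT0.le]
        exact Real.rpow_le_rpow_of_exponent_le (by linarith) (le_abs_self A)
      have g2 : e * μ.real (Ioo (u / 2) (3 * v / 2)) ≤ T ^ (-(|A| + 2)) * (4 ^ |A| * T ^ |A|) :=
        mul_le_mul heb ((f3.trans h1).trans g1) measureReal_nonneg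
          (Real.rpow_nonneg hT0.le _)
      have g3 : T ^ (-(|A| + 2)) * (4 ^ |A| * T ^ |A|) = 4 ^ |A| * T ^ (-(2 : ℝ)) := by
        rw [mul_left_comm, ← Real.rpow_add hT0]
        congr 2
        ring
      have g4 : δ / 2 * c ≤ δ / 2 * MM := by
        have : c ≤ c * (T * L ^ m) := by
          have : 1 ≤ T * L ^ m := one_le_mul_of_one_le_of_one_le (by linarith) hLm
          exact le_mul_of_one_le_right hc.le this
        exact mul_le_mul_of_nonneg_left (this.trans f4) (by positivity)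
      linarith
    have f6 : (v - u) * (|C| * Δ * (2 ^ |q| * L ^ q)) / (√Real.pi * Δ) ≤ δ / 2 * MM := by
      have g1 : (v - u) * (|C| * Δ * (2 ^ |q| * L ^ q)) / (√Real.pi * Δ) =
          T * ((1 + 2 * ρ) * (|C| * 2 ^ |q|) / √Real.pi * L ^ q) := by
        have hpi : √Real.pi ≠ 0 := (Real.sqrt_pos.2 Real.pi_pos).ne'
        rw [hu, hv]
        field_simp
        ring
      rw [g1]
      have g2 : T * ((1 + 2 * ρ) * (|C| * 2 ^ |q|) / √Real.pi * L ^ q) ≤
          T * (δ / 2 * c * L ^ m) := mul_le_mul_of_nonneg_left h5 hT0.le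
      have g3 : T * (δ / 2 * c * L ^ m) = δ / 2 * (c * (T * L ^ m)) := by ring
      have g4 : δ / 2 * (c * (T * L ^ m)) ≤ δ / 2 * MM :=
        mul_le_mul_of_nonneg_left f4 (by positivity)
      linarith
    have hMM0 : 0 ≤ MM := measureReal_nonneg
    have f7 : (1 - e) * ν.real (Icc T (2 * T)) ≤ (1 + δ) * MM := by linarith
    have f8 : (1 + δ) ≤ (1 + ε) * (1 - e) := by
      have g1 : ε₁ * e ≤ 1 / 10 * e := mul_le_mul_of_nonneg_right he3 he0
      have g2 : (1 + ε₁) * (1 - e) ≤ (1 + ε) * (1 - e) :=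
        mul_le_mul_of_nonneg_right (by linarith) (by linarith)
      have g3 : (1 + ε₁) * (1 - e) = 1 + ε₁ - e - ε₁ * e := by ring
      rw [hδ]
      linarith
    have f9 : 0 < 1 - e := by linarith
    have f10 : (1 - e) * ν.real (Icc T (2 * T)) ≤ (1 - e) * ((1 + ε) * MM) := by
      have : (1 + δ) * MM ≤ ((1 + ε) * (1 - e)) * MM := mul_le_mul_of_nonneg_right f8 hMM0
      linarith
    exact f1.trans (le_of_mul_le_mul_left f10 f9)
  · have hτu : u ≤ τ := hτ.1
    have hτv : τ ≤ v := hτ.2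
    have hτ0 : 0 < τ := hu0.trans_le hτu
    have hlτ1 : Real.log u ≤ Real.log τ := Real.log_le_log hu0 hτu
    have hlτ2 : Real.log τ ≤ M := Real.log_le_log hτ0 (hτv.trans hv3)
    have hlτ0 : 0 < Real.log τ := hlogu0.trans_le hlτ1
    have hsτ : √(Real.log τ) ≤ √M := Real.sqrt_le_sqrt hlτ2
    have hb := hC τ Δ (by linarith) hΔ0 ?_ ?_
    · refine hb.trans ?_
      have g1 : Real.log τ ^ q ≤ 2 ^ |q| * L ^ q :=
        rpow_cmp hL0 (hLu.trans hlτ1) (hlτ2.trans hML)
      have g2 : C * Δ * Real.log τ ^ q ≤ |C| * Δ * Real.log τ ^ q := by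
        exact mul_le_mul_of_nonneg_right (mul_le_mul_of_nonneg_right (le_abs_self C) hΔ0.le)
          (Real.rpow_nonneg hlτ0.le _)
      refine g2.trans (mul_le_mul_of_nonneg_left g1 ?_)
      positivity
    · have g1 : 3 * √M ≤ 4 * √(Real.log τ) := by
        have g2 : (3 * √M) ^ 2 ≤ (4 * √(Real.log τ)) ^ 2 := by
          rw [mul_pow, mul_pow, Real.sq_sqrt hM0.le, Real.sq_sqrt hlτ0.le]
          linarith
        exact le_of_sq_le_sq g2 (by positivity)
      have g3 : 4 * B * Δ * √(Real.log τ) = u / √M * (4 * √(Real.log τ)) := by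
        rw [← hBD]; ring
      rw [g3]
      have g4 : u / √M * (3 * √M) ≤ u / √M * (4 * √(Real.log τ)) :=
        mul_le_mul_of_nonneg_left g1 (by positivity)
      have g5 : u / √M * (3 * √M) = 3 * u := by field_simp
      linarith
    · rw [hBD]
      have g4 : u / √M * √(Real.log τ) ≤ u / √M * √M :=
        mul_le_mul_of_nonneg_left hsτ (by positivity)
      have g5 : u / √M * √M = u := by field_simp
      linarith

end Pool.Agent.W334.QS
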